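import Pool.Agent.R708.LS.FG

/-!
The bounded derived category and its standard heart.
-/

open CategoryTheory Limits Pretriangulated Triangulated ZeroObject DerivedCategory

namespace LaxStab

set_option linter.unusedSectionVars false

universe w v u

variable (A : Type u) [Category.{v} A] [Abelian A] [HasDerivedCategory.{w} A]

/-- the embedding of `A` in its bounded derived category -/
noncomputable def singleBd : A ⥤ DerivedCategory.Bounded A where
  obj M := ⟨(singleFunctor A 0).obj M, ⟨⟨0, inferInstance⟩, ⟨0, inferInstance⟩⟩⟩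
  map f := ObjectProperty.homMk ((singleFunctor A 0).map f)
  map_id M := by
    apply ObjectProperty.hom_ext
    exact (singleFunctor A 0).map_id M
  map_comp f g := by
    apply ObjectProperty.hom_ext
    exact (singleFunctor A 0).map_comp f g

theorem bd_aux (P : ObjectProperty (DerivedCategory A)) [P.IsTriangulated]
    (X : P.FullSubcategory) (Y : DerivedCategory A) (d : Y ⟶ (P.ι.obj X)⟦(1 : ℤ)⟧) :
    ((d ≫ (P.ι.commShiftIso (1 : ℤ)).inv.app X) ≫ (P.ι.commShiftIso (1 : ℤ)).hom.app X) ≫
      (𝟙 (P.ι.obj X))⟦(1 : ℤ)⟧' = 𝟙 Y ≫ d := by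
  rw [CategoryTheory.Functor.map_id]
  simp

/-- the heart -/
noncomputable def hiBd : HI A (TStructure.onBounded (DerivedCategory.TStructure.t (C := A))) where
  ι := singleBd A
  full := ⟨fun {X Y} f => by
    obtain ⟨g, hg⟩ := (singleFunctor A 0).map_surjective f.hom
    exact ⟨g, ObjectProperty.hom_ext _ hg⟩⟩
  faithful := ⟨fun {X Y} f g h => (singleFunctor A 0).map_injective (congrArg (fun k => k.hom) h)⟩
  additive := ⟨fun {X Y f g} => by
    apply ObjectProperty.hom_ext
    exact (singleFunctor A 0).map_add⟩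
  le M := by
    rw [ObjectProperty.tStructure_isLE_iff]
    exact inferInstanceAs (TStructure.t.IsLE ((singleFunctor A 0).obj M) 0)
  ge M := by
    rw [ObjectProperty.tStructure_isGE_iff]
    exact inferInstanceAs (TStructure.t.IsGE ((singleFunctor A 0).obj M) 0)
  ess X h1 h2 := by
    rw [ObjectProperty.tStructure_isLE_iff] at h1
    rw [ObjectProperty.tStructure_isGE_iff] at h2
    obtain ⟨M, ⟨e⟩⟩ := exists_iso_singleFunctor_obj_of_isGE_of_isLE X.obj 0
    exact ⟨M, ⟨ObjectProperty.isoMk _ e⟩⟩
  tri X Y Z i p w hS := by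
    let P := (DerivedCategory.TStructure.t (C := A)).bounded
    let δ' : (singleBd A).obj Z ⟶ ((singleBd A).obj X)⟦(1 : ℤ)⟧ :=
      P.fullyFaithfulι.preimage (hS.singleδ ≫
        (P.ι.commShiftIso (1 : ℤ)).inv.app ((singleBd A).obj X))
    refine ⟨δ', ?_⟩
    show P.ι.mapTriangle.obj _ ∈ distTriang _
    refine isomorphic_distinguished _ hS.singleTriangle_distinguished _ ?_
    refine Triangle.isoMk _ _ (Iso.refl _) (Iso.refl _) (Iso.refl _) ?_ ?_ ?_
    · show (singleFunctor A 0).map i ≫ 𝟙 _ = 𝟙 _ ≫ (singleFunctor A 0).map i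
      simp
    · show (singleFunctor A 0).map p ≫ 𝟙 _ = 𝟙 _ ≫ (singleFunctor A 0).map p
      simp
    · exact bd_aux A P ((singleBd A).obj X) ((singleFunctor A 0).obj Z) hS.singleδ

theorem bd_bounded (X : DerivedCategory.Bounded A) : ∃ a b : ℤ,
    (TStructure.onBounded (DerivedCategory.TStructure.t (C := A))).IsGE X a ∧
    (TStructure.onBounded (DerivedCategory.TStructure.t (C := A))).IsLE X b := by
  obtain ⟨⟨a, ha⟩, ⟨b, hb⟩⟩ := X.property
  refine ⟨a, b, ?_, ?_⟩
  · rw [ObjectProperty.tStructure_isGE_iff]; exact ha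
  · rw [ObjectProperty.tStructure_isLE_iff]; exact hb

end LaxStab
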