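import Pool.Agent.R708.LS.Bd

/-!
The Euler characteristic of ranks on the bounded derived category of finitely generated modules.
-/

open CategoryTheory Limits Pretriangulated Triangulated ZeroObject DerivedCategory

namespace LaxStab

set_option linter.unusedSectionVars false

universe w

section Chi

variable {R : Type} [CommRing R] [IsDomain R] [IsNoetherianRing R]

/-- the rank of a finitely generated module -/
noncomputable def rk (M : FGModuleCat.{0} R) : ℤ := (Module.finrank R M : ℤ)

/-- the rank of a map -/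
noncomputable def mrk {M N : FGModuleCat.{0} R} (f : M ⟶ N) : ℤ :=
  (Module.finrank R (LinearMap.range f.hom.hom) : ℤ)

theorem rk_exact {X Y Z : FGModuleCat.{0} R} (i : X ⟶ Y) (p : Y ⟶ Z) (w : i ≫ p = 0)
    (h : (ShortComplex.mk i p w).Exact) : rk Y = mrk i + mrk p := by
  have h1 := (fg_exact_iff i p w).1 h
  have h2 : LinearMap.range i.hom.hom = LinearMap.ker p.hom.hom := by
    ext y
    constructor
    · rintro ⟨x, rfl⟩
      exact congrArg (fun f : X ⟶ Z => f.hom.hom x) w
    · intro hy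
      exact h1 y hy
  have h3 := Submodule.finrank_quotient_add_finrank (LinearMap.ker p.hom.hom)
  rw [LinearEquiv.finrank_eq (LinearMap.quotKerEquivRange p.hom.hom)] at h3
  unfold rk mrk
  rw [h2]
  have h4 : Module.finrank R Y = Module.finrank R (LinearMap.ker p.hom.hom) +
      Module.finrank R (LinearMap.range p.hom.hom) := by
    rw [add_comm]; exact h3.symm
  exact_mod_cast h4

theorem rk_iso {X Y : FGModuleCat.{0} R} (e : X ≅ Y) : rk X = rk Y := by
  unfold rk
  rw [LinearEquiv.finrank_eq (FGModuleCat.isoToLinearEquiv e)]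

theorem rk_zero {X : FGModuleCat.{0} R} (h : IsZero X) : rk X = 0 := by
  have := (fg_zero_iff X).1 h
  have h1 : Subsingleton X := ⟨fun x y => by rw [this x, this y]⟩
  unfold rk
  rw [Module.finrank_zero_of_subsingleton]
  rfl

theorem mrk_zero {X Y : FGModuleCat.{0} R} (f : X ⟶ Y) (h : IsZero X) : mrk f = 0 := by
  have := (fg_zero_iff X).1 h
  have h1 : Subsingleton (LinearMap.range f.hom.hom) := by
    refine ⟨?_⟩
    rintro ⟨x, x', rfl⟩ ⟨y, y', rfl⟩
    rw [Subtype.mk.injEq, this x', this y']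
  unfold mrk
  rw [Module.finrank_zero_of_subsingleton]
  rfl

theorem rk_eq_zero {X : FGModuleCat.{0} R} : rk X = 0 ↔ ∀ x : X, ∃ a : R, a ≠ 0 ∧ a • x = 0 := by
  unfold rk
  rw [Nat.cast_eq_zero, Module.finrank_eq_zero_iff_isTorsion]
  constructor
  · intro h x
    obtain ⟨a, ha⟩ := h (x := x)
    exact ⟨a, nonZeroDivisors.coe_ne_zero a, ha⟩
  · intro h x
    obtain ⟨a, ha, hax⟩ := h x
    exact ⟨⟨a, mem_nonZeroDivisors_of_ne_zero ha⟩, hax⟩

variable [HasDerivedCategory.{w} (FGModuleCat.{0} R)]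

/-- the Euler characteristic -/
noncomputable def chi (X : DerivedCategory (FGModuleCat.{0} R)) : ℤ :=
  ∑ᶠ j : ℤ, (j.negOnePow : ℤ) * rk ((homologyFunctor (FGModuleCat.{0} R) j).obj X)

theorem fin_supp (X : DerivedCategory (FGModuleCat.{0} R)) (hX : TStructure.t.bounded X) :
    {j : ℤ | ¬ IsZero ((homologyFunctor (FGModuleCat.{0} R) j).obj X)}.Finite := by
  obtain ⟨⟨a, ha⟩, ⟨b, hb⟩⟩ := hX
  refine (Set.finite_Icc a b).subset ?_
  intro j hj
  by_contra h
  rw [Set.mem_Icc, not_and_or, not_le, not_le] at h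
  rcases h with h | h
  · exact hj (isZero_of_isGE X a j h)
  · exact hj (isZero_of_isLE X b j h)

theorem chi_triangle (T : Triangle (DerivedCategory (FGModuleCat.{0} R))) (hT : T ∈ distTriang _)
    (h1 : TStructure.t.bounded T.obj₁) (h2 : TStructure.t.bounded T.obj₂)
    (h3 : TStructure.t.bounded T.obj₃) : chi T.obj₂ = chi T.obj₁ + chi T.obj₃ := by
  let H := homologyFunctor (FGModuleCat.{0} R)
  let c : ℤ → ℤ := fun j => mrk (HomologySequence.δ T j (j + 1) rfl)
  have e2 : ∀ j, rk ((H j).obj T.obj₂) = mrk ((H j).map T.mor₁) + mrk ((H j).map T.mor₂) :=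
    fun j => rk_exact _ _ _ (HomologySequence.exact₂ T hT j)
  have e3 : ∀ j, rk ((H j).obj T.obj₃) = mrk ((H j).map T.mor₂) + c j :=
    fun j => rk_exact _ _ _ (HomologySequence.exact₃ T hT j (j + 1) rfl)
  have hc : ∀ n₀ n₁ (h : n₀ + 1 = n₁), mrk (HomologySequence.δ T n₀ n₁ h) = c n₀ := by
    intro n₀ n₁ h
    subst h
    rfl
  have e1 : ∀ j, rk ((H j).obj T.obj₁) = c (j - 1) + mrk ((H j).map T.mor₁) := by
    intro j
    rw [← hc (j - 1) j (by omega)]
    exact rk_exact _ _ _ (HomologySequence.exact₁ T hT (j - 1) j (by omega))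
  have f1 := fin_supp _ h1
  have f2 := fin_supp _ h2
  have f3 := fin_supp _ h3
  have g : ∀ (X : DerivedCategory (FGModuleCat.{0} R)),
      {j : ℤ | ¬ IsZero ((homologyFunctor (FGModuleCat.{0} R) j).obj X)}.Finite →
      (Function.support fun j : ℤ => (j.negOnePow : ℤ) * rk ((H j).obj X)).Finite := by
    intro X hX
    refine hX.subset ?_
    intro j hj h0
    exact hj (by show (j.negOnePow : ℤ) * rk ((H j).obj X) = 0; rw [rk_zero h0, mul_zero])
  have gc : (Function.support fun j : ℤ => (j.negOnePow : ℤ) * c j).Finite := by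
    refine f3.subset ?_
    intro j hj h0
    exact hj (by show (j.negOnePow : ℤ) * c j = 0; rw [show c j = 0 from mrk_zero _ h0, mul_zero])
  have gc' : (Function.support fun j : ℤ => ((j - 1).negOnePow : ℤ) * c (j - 1)).Finite := by
    have := gc.preimage (f := fun j : ℤ => j - 1) (by
      intro x _ y _ h
      have : x - 1 = y - 1 := h
      omega)
    exact this
  have key : chi T.obj₁ + chi T.obj₃ = chi T.obj₂ +
      (∑ᶠ j : ℤ, (j.negOnePow : ℤ) * c j) - ∑ᶠ j : ℤ, ((j - 1).negOnePow : ℤ) * c (j - 1) := by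
    unfold chi
    rw [← finsum_add_distrib (g _ f1) (g _ f3), ← finsum_add_distrib (g _ f2) gc,
      ← finsum_sub_distrib _ gc']
    · refine finsum_congr fun j => ?_
      have s1 : ((j - 1).negOnePow : ℤ) = - (j.negOnePow : ℤ) := by
        rw [Int.negOnePow_sub, Int.negOnePow_one]; simp
      rw [s1]
      have e1' := e1 j
      have e2' := e2 j
      have e3' := e3 j
      simp only [H] at e1' e2' e3'
      rw [e1', e2', e3']
      ring
    · refine (f2.union gc).subset ?_
      intro j hj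
      by_contra h0
      rw [Set.mem_union, not_or] at h0
      refine hj ?_
      have h1 : IsZero ((H j).obj T.obj₂) := not_not.1 h0.1
      have h2 : (j.negOnePow : ℤ) * c j = 0 := not_not.1 h0.2
      show (j.negOnePow : ℤ) * rk ((H j).obj T.obj₂) + (j.negOnePow : ℤ) * c j = 0
      rw [h2, rk_zero h1]; simp
  have shift : (∑ᶠ j : ℤ, ((j - 1).negOnePow : ℤ) * c (j - 1)) =
      ∑ᶠ j : ℤ, (j.negOnePow : ℤ) * c j :=
    finsum_comp_equiv (Equiv.subRight (1 : ℤ)) (f := fun j : ℤ => (j.negOnePow : ℤ) * c j)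
  rw [shift] at key
  linarith

theorem chi_iso {X Y : DerivedCategory (FGModuleCat.{0} R)} (e : X ≅ Y) : chi X = chi Y :=
  finsum_congr fun j => by
    rw [rk_iso ((homologyFunctor (FGModuleCat.{0} R) j).mapIso e)]

theorem chi_shift (X : DerivedCategory (FGModuleCat.{0} R)) (n : ℤ) :
    chi (X⟦n⟧) = (n.negOnePow : ℤ) * chi X := by
  have e : ∀ j : ℤ, (homologyFunctor (FGModuleCat.{0} R) j).obj (X⟦n⟧) ≅
      (homologyFunctor (FGModuleCat.{0} R) (n + j)).obj X := fun j =>
    ((homologyFunctor (FGModuleCat.{0} R) 0).shiftIso n j (n + j) rfl).app X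
  have h1 : chi (X⟦n⟧) = ∑ᶠ j : ℤ, (n.negOnePow : ℤ) * (((n + j).negOnePow : ℤ) *
      rk ((homologyFunctor (FGModuleCat.{0} R) (n + j)).obj X)) := by
    unfold chi
    refine finsum_congr fun j => ?_
    rw [rk_iso (e j), ← mul_assoc, Int.negOnePow_add]
    congr 1
    push_cast
    rw [← mul_assoc]
    have : (n.negOnePow : ℤ) * (n.negOnePow : ℤ) = 1 := by
      rw [← Units.val_mul, ← Int.negOnePow_add, ← two_mul, Int.negOnePow_two_mul]
      rfl
    rw [this, one_mul]
  rw [h1, ← mul_finsum]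
  · congr 1
    exact finsum_comp_equiv (Equiv.addLeft n)
      (f := fun j : ℤ => (j.negOnePow : ℤ) * rk ((homologyFunctor (FGModuleCat.{0} R) j).obj X))

theorem chi_single (M : FGModuleCat.{0} R) :
    chi ((singleFunctor (FGModuleCat.{0} R) 0).obj M) = rk M := by
  unfold chi
  rw [finsum_eq_single _ (0 : ℤ)]
  · have h : rk ((homologyFunctor (FGModuleCat.{0} R) 0).obj
        ((singleFunctor (FGModuleCat.{0} R) 0).obj M)) = rk M :=
      rk_iso ((singleFunctorCompHomologyFunctorIso (FGModuleCat.{0} R) 0).app M)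
    rw [Int.negOnePow_zero, h]
    simp
  · intro j hj
    rcases lt_or_gt_of_ne hj with h | h
    · rw [rk_zero (isZero_of_isGE _ 0 j h), mul_zero]
    · rw [rk_zero (isZero_of_isLE _ 0 j h), mul_zero]

variable (R) in
/-- the Euler characteristic as a homomorphism on the Grothendieck group -/
noncomputable def vchi : K0 (DerivedCategory.Bounded (FGModuleCat.{0} R)) →+ ℤ :=
  QuotientAddGroup.lift _ (FreeAbelianGroup.lift fun X => chi X.obj) (by
    rw [AddSubgroup.closure_le]
    rintro x ⟨T, hT, rfl⟩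
    show FreeAbelianGroup.lift _ _ = 0
    rw [map_sub, map_sub, FreeAbelianGroup.lift_apply_of, FreeAbelianGroup.lift_apply_of,
      FreeAbelianGroup.lift_apply_of]
    have := chi_triangle _ hT T.obj₁.property T.obj₂.property T.obj₃.property
    have h2 : chi T.obj₂.obj = chi T.obj₁.obj + chi T.obj₃.obj := this
    rw [h2]; ring)

theorem vchi_cls (X : DerivedCategory.Bounded (FGModuleCat.{0} R)) :
    vchi R (K0.cls X) = chi X.obj := by
  show FreeAbelianGroup.lift _ _ = _
  rw [FreeAbelianGroup.lift_apply_of]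

end Chi

end LaxStab
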