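import Mathlib

/-!
Slicings, lax stability conditions, strict subobjects, composition series, and the
Jordan-Hölder property.
-/

open CategoryTheory Limits Pretriangulated

open scoped TensorProduct

namespace LaxStab

universe v u

section Slices

variable {D : Type u} [Category.{v} D] [HasZeroMorphisms D]

/-- `A ⟶ B ⟶ Q` is a kernel-cokernel pair: `i` is a kernel of `p` and `p` is a cokernel of `i`. -/
structure IsKerCok {A B Q : D} (i : A ⟶ B) (p : B ⟶ Q) : Prop where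
  zero : i ≫ p = 0
  ker : ∀ (W : D) (f : W ⟶ B), f ≫ p = 0 → ∃! g : W ⟶ A, g ≫ i = f
  cok : ∀ (W : D) (f : B ⟶ W), i ≫ f = 0 → ∃! g : Q ⟶ W, p ≫ g = f

/-- `i : A ⟶ B` makes `A` a strict subobject of `B`. -/
def IsStrictMono {A B : D} (i : A ⟶ B) : Prop := ∃ (Q : D) (p : B ⟶ Q), IsKerCok i p

/-- A simple object: nonzero, and every strict subobject is zero or everything. -/
def IsSimple (S : D) : Prop :=
  ¬ IsZero S ∧ ∀ (A : D) (i : A ⟶ S), IsStrictMono i → IsZero A ∨ IsIso i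

/-- A composition series `0 = c_0 ⊂ c_1 ⊂ ⋯ ⊂ c_n = X` of strict subobjects of `X` whose
successive quotients are simple. -/
structure CompSeries (X : D) where
  /-- the length -/
  n : ℕ
  /-- the objects `c_i` -/
  obj : Fin (n + 1) → D
  /-- the inclusions `c_i ⟶ X` -/
  incl : ∀ i, obj i ⟶ X
  strict : ∀ i, IsStrictMono (incl i)
  bot : IsZero (obj 0)
  top : IsIso (incl (Fin.last n))
  /-- the inclusions `c_i ⟶ c_{i+1}` -/
  step : ∀ i : Fin n, obj i.castSucc ⟶ obj i.succ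
  comm : ∀ i : Fin n, step i ≫ incl i.succ = incl i.castSucc
  /-- the successive quotients -/
  factor : Fin n → D
  /-- the projections `c_{i+1} ⟶ c_{i+1}/c_i` -/
  proj : ∀ i : Fin n, obj i.succ ⟶ factor i
  quot : ∀ i : Fin n, IsKerCok (step i) (proj i)
  simple : ∀ i : Fin n, IsSimple (factor i)

variable (D) in
/-- The Jordan-Hölder property: any two composition series of the same object have the same
length and, up to a permutation, isomorphic factors. -/
def JordanHolder : Prop :=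
  ∀ (X : D) (a b : CompSeries X), ∃ σ : Fin a.n ≃ Fin b.n,
    ∀ i, Nonempty (a.factor i ≅ b.factor (σ i))

end Slices

section Triang

variable (C : Type u) [Category.{v} C] [HasZeroObject C] [HasShift C ℤ] [Preadditive C]
  [∀ n : ℤ, (shiftFunctor C n).Additive] [Pretriangulated C]

/-- The Grothendieck group `K(C)` of a triangulated category: the free abelian group on the
objects modulo `[Y] = [X] + [Z]` for the distinguished triangles `X ⟶ Y ⟶ Z ⟶ X[1]`. -/
abbrev K0 : Type u :=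
  FreeAbelianGroup C ⧸ AddSubgroup.closure {x : FreeAbelianGroup C | ∃ T : Triangle C,
    T ∈ distTriang C ∧ x = FreeAbelianGroup.of T.obj₂ - FreeAbelianGroup.of T.obj₁ -
      FreeAbelianGroup.of T.obj₃}

variable {C}

/-- The class of an object. -/
def K0.cls (X : C) : K0 C := QuotientAddGroup.mk (FreeAbelianGroup.of X)

/-- `HNFilt P X L`: the object `X` has a filtration `0 = X_0 ⟶ X_1 ⟶ ⋯ ⟶ X_n = X` with
distinguished triangles `X_{i-1} ⟶ X_i ⟶ A_i ⟶ X_{i-1}[1]` and `0 ≠ A_i ∈ P(φ_i)`,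
`φ_1 > ⋯ > φ_n`, where `L = [φ_n, …, φ_1]`. -/
inductive HNFilt (P : ℝ → ObjectProperty C) : C → List ℝ → Prop
  | zero (X : C) (h : IsZero X) : HNFilt P X []
  | step (X' X A : C) (φ : ℝ) (L : List ℝ) (f : X' ⟶ X) (g : X ⟶ A) (h : A ⟶ X'⟦(1 : ℤ)⟧)
      (dist : Triangle.mk f g h ∈ distTriang C) (hX' : HNFilt P X' L) (hA : P φ A)
      (hA0 : ¬ IsZero A) (hφ : ∀ ψ ∈ L, φ < ψ) : HNFilt P X (φ :: L)

variable (C) in
/-- A slicing in Bridgeland's sense. -/
structure Slicing where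
  /-- the slices `P(φ)` -/
  P : ℝ → ObjectProperty C
  iso_closed : ∀ φ X Y, P φ X → (X ≅ Y) → P φ Y
  zero_mem : ∀ φ X, IsZero X → P φ X
  sum_mem : ∀ φ (X Y : C) (b : BinaryBicone X Y), b.IsBilimit → P φ X → P φ Y → P φ b.pt
  shift : ∀ φ X, P (φ + 1) (X⟦(1 : ℤ)⟧) ↔ P φ X
  hom_zero : ∀ φ₁ φ₂ X Y, φ₂ < φ₁ → P φ₁ X → P φ₂ Y → ∀ f : X ⟶ Y, f = 0
  hn : ∀ X, ∃ L, HNFilt P X L

variable (C) in
/-- A lax stability condition on `C`, including the lattice `Λ`, the norm on `Λ ⊗ ℝ` and the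
homomorphism `v : K(C) → Λ`.  The mass of a semistable object `c ∈ P(φ)` is
`m(c) = ‖Z(v(c))‖`. -/
structure LaxStability where
  /-- the slicing -/
  slicing : Slicing C
  /-- the lattice -/
  Λ : Type
  [grp : AddCommGroup Λ]
  [free : Module.Free ℤ Λ]
  [fin : Module.Finite ℤ Λ]
  /-- the norm on `Λ ⊗ ℝ` -/
  nrm : Seminorm ℝ (ℝ ⊗[ℤ] Λ)
  nrm_pos : ∀ x, nrm x = 0 → x = 0
  /-- the homomorphism `v : K(C) → Λ` -/
  v : K0 C →+ Λ
  /-- the charge -/
  Z : Λ →+ ℂ
  phase : ∀ (φ : ℝ) (c : C), slicing.P φ c → ¬ IsZero c →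
    ∃ m : ℝ, 0 ≤ m ∧ Z (v (K0.cls c)) = m * Complex.exp (Real.pi * φ * Complex.I)
  /-- the constant in the support property -/
  K : ℝ
  K_pos : 0 < K
  support : ∀ (φ : ℝ) (s : (slicing.P φ).FullSubcategory), IsSimple s →
    Z (v (K0.cls s.obj)) ≠ 0 → nrm (1 ⊗ₜ[ℤ] v (K0.cls s.obj)) / K ≤ ‖Z (v (K0.cls s.obj))‖

end Triang

end LaxStab
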