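import Pool.Agent.R708.LS.JH

/-!
The torsion pair in the category of finitely generated modules over a Noetherian domain.
-/

open CategoryTheory Limits Pretriangulated Triangulated ZeroObject

namespace LaxStab

set_option linter.unusedSectionVars false

section FG

variable {R : Type} [CommRing R] [IsNoetherianRing R]

theorem fg_exact_iff {X Y Z : FGModuleCat.{0} R} (i : X ⟶ Y) (p : Y ⟶ Z) (w : i ≫ p = 0) :
    (ShortComplex.mk i p w).Exact ↔ ∀ y : Y, p.hom.hom y = 0 → ∃ x : X, i.hom.hom x = y := by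
  rw [← ShortComplex.exact_map_iff_of_faithful _ (forget₂ (FGModuleCat.{0} R) (ModuleCat.{0} R)),
    ShortComplex.moduleCat_exact_iff]
  rfl

theorem fg_shortExact {X Y Z : FGModuleCat.{0} R} (i : X ⟶ Y) (p : Y ⟶ Z) (w : i ≫ p = 0)
    (hi : Function.Injective i.hom.hom) (hp : Function.Surjective p.hom.hom)
    (h : ∀ y : Y, p.hom.hom y = 0 → ∃ x : X, i.hom.hom x = y) :
    (ShortComplex.mk i p w).ShortExact := by
  have h1 : Mono i := by
    have : Mono ((forget₂ (FGModuleCat.{0} R) (ModuleCat.{0} R)).map i) :=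
      (ModuleCat.mono_iff_injective _).2 hi
    exact (forget₂ (FGModuleCat.{0} R) (ModuleCat.{0} R)).mono_of_mono_map this
  have h2 : Epi p := by
    have : Epi ((forget₂ (FGModuleCat.{0} R) (ModuleCat.{0} R)).map p) :=
      (ModuleCat.epi_iff_surjective _).2 hp
    exact (forget₂ (FGModuleCat.{0} R) (ModuleCat.{0} R)).epi_of_epi_map this
  exact ⟨(fg_exact_iff i p w).2 h⟩

theorem fg_zero_iff (X : FGModuleCat.{0} R) : IsZero X ↔ ∀ x : X, x = 0 := by
  rw [IsZero.iff_id_eq_zero]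
  constructor
  · intro h x
    have := congrArg (fun f : X ⟶ X => f.hom.hom x) h
    exact this
  · intro h
    apply FGModuleCat.hom_ext
    ext x
    exact h x

end FG

section Tors

variable (R : Type) [CommRing R] [IsDomain R] [IsNoetherianRing R]

/-- the torsion pair (torsion modules, torsion-free modules) -/
def torsTP : TP (FGModuleCat.{0} R) where
  T M := ∀ x : M, ∃ a : R, a ≠ 0 ∧ a • x = 0
  F M := ∀ (a : R) (x : M), a ≠ 0 → a • x = 0 → x = 0
  zeroT X hX x := ⟨1, one_ne_zero, by rw [one_smul]; exact (fg_zero_iff X).1 hX x⟩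
  zeroF X hX a x _ _ := (fg_zero_iff X).1 hX x
  sumT X Y hX hY z := by
    obtain ⟨a, ha, hax⟩ := hX ((biprod.fst : X ⊞ Y ⟶ X).hom.hom z)
    obtain ⟨b, hb, hby⟩ := hY ((biprod.snd : X ⊞ Y ⟶ Y).hom.hom z)
    refine ⟨a * b, mul_ne_zero ha hb, ?_⟩
    have h := congrArg (fun f : X ⊞ Y ⟶ X ⊞ Y => f.hom.hom z) (biprod.total (X := X) (Y := Y))
    have h' : (biprod.inl : X ⟶ X ⊞ Y).hom.hom ((biprod.fst : X ⊞ Y ⟶ X).hom.hom z) +
      (biprod.inr : Y ⟶ X ⊞ Y).hom.hom ((biprod.snd : X ⊞ Y ⟶ Y).hom.hom z) = z := h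
    have h1 : (a * b) • (biprod.inl : X ⟶ X ⊞ Y).hom.hom ((biprod.fst : X ⊞ Y ⟶ X).hom.hom z) =
        0 := by
      rw [mul_comm, mul_smul, ← map_smul, hax, map_zero, smul_zero]
    have h2 : (a * b) • (biprod.inr : Y ⟶ X ⊞ Y).hom.hom ((biprod.snd : X ⊞ Y ⟶ Y).hom.hom z) =
        0 := by
      rw [mul_smul, ← map_smul, hby, map_zero, smul_zero]
    rw [← h', smul_add, h1, h2, add_zero]
  sumF X Y hX hY a z ha haz := by
    have h := congrArg (fun f : X ⊞ Y ⟶ X ⊞ Y => f.hom.hom z) (biprod.total (X := X) (Y := Y))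
    have h' : (biprod.inl : X ⟶ X ⊞ Y).hom.hom ((biprod.fst : X ⊞ Y ⟶ X).hom.hom z) +
      (biprod.inr : Y ⟶ X ⊞ Y).hom.hom ((biprod.snd : X ⊞ Y ⟶ Y).hom.hom z) = z := h
    have h1 := hX a ((biprod.fst : X ⊞ Y ⟶ X).hom.hom z) ha (by rw [← map_smul, haz, map_zero])
    have h2 := hY a ((biprod.snd : X ⊞ Y ⟶ Y).hom.hom z) ha (by rw [← map_smul, haz, map_zero])
    rw [← h', h1, h2, map_zero, map_zero, add_zero]
  hom X Y hX hY f := by
    apply FGModuleCat.hom_ext
    ext x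
    obtain ⟨a, ha, hax⟩ := hX x
    exact hY a _ ha (by rw [← map_smul, hax, map_zero])
  dec Y := by
    let N := Submodule.torsion R Y
    refine ⟨FGModuleCat.of R N, FGModuleCat.of R (Y ⧸ N), FGModuleCat.ofHom N.subtype,
      FGModuleCat.ofHom N.mkQ, ?_, fg_shortExact _ _ _ ?_ ?_ ?_, ?_, ?_⟩
    · apply FGModuleCat.hom_ext
      ext x
      exact (Submodule.Quotient.mk_eq_zero N).2 x.2
    · exact N.injective_subtype
    · exact N.mkQ_surjective
    · intro y hy
      exact ⟨⟨y, (Submodule.Quotient.mk_eq_zero N).1 hy⟩, rfl⟩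
    · intro x
      obtain ⟨a, ha⟩ := (Submodule.mem_torsion_iff _).1 x.2
      exact ⟨a, nonZeroDivisors.coe_ne_zero a, Subtype.ext ha⟩
    · intro a x ha hax
      obtain ⟨y, rfl⟩ := N.mkQ_surjective x
      rw [← map_smul] at hax
      have h1 := (Submodule.Quotient.mk_eq_zero N).1 hax
      obtain ⟨b, hb⟩ := (Submodule.mem_torsion_iff _).1 h1
      refine (Submodule.Quotient.mk_eq_zero N).2 ((Submodule.mem_torsion_iff _).2
        ⟨b * ⟨a, mem_nonZeroDivisors_of_ne_zero ha⟩, ?_⟩)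
      rw [mul_smul]
      exact hb

end Tors

end LaxStab
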