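import Pool.Agent.R708.LS.FG

/-!
The category of finitely generated torsion-free modules over `ℤ[X]` does not have the
Jordan-Hölder property.
-/

open CategoryTheory Limits Pretriangulated Triangulated ZeroObject

namespace LaxStab

set_option linter.unusedSectionVars false

section TF

variable {R : Type} [CommRing R] [IsDomain R] [IsNoetherianRing R]

theorem tf_isKerCok {X Y Z : (torsTP R).F.FullSubcategory} (i : X ⟶ Y) (p : Y ⟶ Z)
    (w : i.hom ≫ p.hom = 0)
    (hi : Function.Injective i.hom.hom.hom) (hp : Function.Surjective p.hom.hom.hom)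
    (h : ∀ y : Y.obj, p.hom.hom.hom y = 0 → ∃ x : X.obj, i.hom.hom.hom x = y) :
    IsKerCok i p := by
  have hS := fg_shortExact i.hom p.hom w hi hp h
  have hm : Mono i.hom := hS.mono_f
  have he : Epi p.hom := hS.epi_g
  refine ⟨ObjectProperty.hom_ext _ w, fun W f hf => ?_, fun W f hf => ?_⟩
  · obtain ⟨l, hl⟩ := KernelFork.IsLimit.lift' hS.fIsKernel f.hom (congrArg (fun k => k.hom) hf)
    refine ⟨ObjectProperty.homMk l, ObjectProperty.hom_ext _ hl, fun g hg => ?_⟩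
    apply ObjectProperty.hom_ext
    rw [← cancel_mono i.hom]
    have h1 : g.hom ≫ i.hom = f.hom := congrArg (fun k => k.hom) hg
    exact h1.trans hl.symm
  · obtain ⟨l, hl⟩ := CokernelCofork.IsColimit.desc' hS.gIsCokernel f.hom
      (congrArg (fun k => k.hom) hf)
    refine ⟨ObjectProperty.homMk l, ObjectProperty.hom_ext _ hl, fun g hg => ?_⟩
    apply ObjectProperty.hom_ext
    rw [← cancel_epi p.hom]
    have h1 : p.hom ≫ g.hom = f.hom := congrArg (fun k => k.hom) hg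
    exact h1.trans hl.symm

/-- bundled torsion-free modules -/
def tfOf (M : Type) [AddCommGroup M] [Module R M] [Module.Finite R M]
    (h : ∀ (a : R) (x : M), a ≠ 0 → a • x = 0 → x = 0) : (torsTP R).F.FullSubcategory :=
  ⟨FGModuleCat.of R M, h⟩

theorem tf_isSimple (M : (torsTP R).F.FullSubcategory) (m : M.obj) (hm : m ≠ 0)
    (h : ∀ y z : M.obj, y ≠ 0 → ∃ a b : R, a ≠ 0 ∧ a • z = b • y) : IsSimple M := by
  refine ⟨fun h0 => hm ?_, ?_⟩
  · rw [IsZero.iff_id_eq_zero] at h0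
    exact congrArg (fun f : M ⟶ M => f.hom.hom.hom m) h0
  · rintro A i ⟨Q, p, hp⟩
    by_cases hA : ∀ x : A.obj, x = 0
    · left
      rw [IsZero.iff_id_eq_zero]
      apply ObjectProperty.hom_ext
      apply FGModuleCat.hom_ext
      ext x
      exact hA x
    · right
      push Not at hA
      obtain ⟨x, hx⟩ := hA
      have hy : i.hom.hom.hom x ≠ 0 := by
        intro h0
        let U : (torsTP R).F.FullSubcategory := tfOf R (fun a x ha hax => by
          rcases mul_eq_zero.1 hax with h | h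
          · exact absurd h ha
          · exact h)
        let f : U ⟶ A := ObjectProperty.homMk (ObjectProperty.homMk (ModuleCat.ofHom
          (LinearMap.toSpanSingleton R A.obj x)))
        obtain ⟨g, _, hg⟩ := hp.ker U 0 zero_comp
        have h1 : f = g := hg f (by
          apply ObjectProperty.hom_ext
          apply FGModuleCat.hom_ext
          ext
          show i.hom.hom.hom ((1 : R) • x) = 0
          rw [one_smul, h0])
        have h2 : (0 : U ⟶ A) = g := hg 0 zero_comp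
        have h3 : f = 0 := h1.trans h2.symm
        have h4 : (1 : R) • x = 0 := congrArg (fun k : U ⟶ A => k.hom.hom.hom (1 : R)) h3
        rw [one_smul] at h4
        exact hx h4
      have hp0 : p = 0 := by
        apply ObjectProperty.hom_ext
        apply FGModuleCat.hom_ext
        ext z
        obtain ⟨a, b, ha, hab⟩ := h _ z hy
        refine Q.property a _ ha ?_
        rw [← map_smul, hab, map_smul]
        have h5 : p.hom.hom.hom (i.hom.hom.hom x) = 0 :=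
          congrArg (fun k : A ⟶ Q => k.hom.hom.hom x) hp.zero
        rw [h5, smul_zero]
      obtain ⟨g, hg, _⟩ := hp.ker M (𝟙 M) (by rw [hp0]; exact comp_zero)
      have hg' : g ≫ i = 𝟙 M := hg
      obtain ⟨k, _, hk⟩ := hp.ker A i hp.zero
      have h6 : i ≫ g = k := hk _ (by
        show (i ≫ g) ≫ i = i
        rw [Category.assoc, hg', Category.comp_id])
      have h7 : 𝟙 A = k := hk _ (Category.id_comp i)
      exact ⟨g, h6.trans h7.symm, hg'⟩

variable {M N Q : Type} [AddCommGroup M] [Module R M] [Module.Finite R M]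
  [AddCommGroup N] [Module R N] [Module.Finite R N]
  [AddCommGroup Q] [Module R Q] [Module.Finite R Q]
  (hM : ∀ (a : R) (x : M), a ≠ 0 → a • x = 0 → x = 0)
  (hN : ∀ (a : R) (x : N), a ≠ 0 → a • x = 0 → x = 0)
  (hQ : ∀ (a : R) (x : Q), a ≠ 0 → a • x = 0 → x = 0)

/-- bundled linear maps -/
def tfMap (f : M →ₗ[R] N) : tfOf M hM ⟶ tfOf N hN :=
  ObjectProperty.homMk (ObjectProperty.homMk (ModuleCat.ofHom f))

theorem tfMap_isKerCok (i : M →ₗ[R] N) (p : N →ₗ[R] Q) (w : ∀ x, p (i x) = 0)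
    (hi : Function.Injective i) (hp : Function.Surjective p)
    (h : ∀ y : N, p y = 0 → ∃ x : M, i x = y) : IsKerCok (tfMap hM hN i) (tfMap hN hQ p) := by
  refine tf_isKerCok _ _ ?_ hi hp h
  apply FGModuleCat.hom_ext
  apply LinearMap.ext
  exact w

theorem tfOf_isSimple (m : M) (hm : m ≠ 0)
    (h : ∀ y z : M, y ≠ 0 → ∃ a b : R, a ≠ 0 ∧ a • z = b • y) : IsSimple (tfOf M hM) :=
  tf_isSimple (tfOf M hM) m hm h

end TF

section Poly

open Polynomial

theorem not_iso_ideal (e : ℤ[X] ≃ₗ[ℤ[X]] (Ideal.span {(2 : ℤ[X]), X})) : False := by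
  set g : ℤ[X] := (e 1 : ℤ[X]) with hg
  have key : ∀ z : ℤ[X], z ∈ Ideal.span {(2 : ℤ[X]), X} → g ∣ z := by
    intro z hz
    obtain ⟨r, hr⟩ := e.surjective ⟨z, hz⟩
    have h1 : e r = r • e 1 := by rw [← map_smul, smul_eq_mul, mul_one]
    rw [h1] at hr
    have h2 : r * g = z := congrArg Subtype.val hr
    exact ⟨r, by rw [mul_comm]; exact h2.symm⟩
  have h2 : g ∣ C 2 := key _ (Ideal.subset_span (by simp))
  have hX : g ∣ X := key _ (Ideal.subset_span (by simp))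
  have hdeg : g.natDegree = 0 := by
    have := Polynomial.natDegree_le_of_dvd h2 (by simp)
    simpa using this
  rw [Polynomial.eq_C_of_natDegree_eq_zero hdeg, Polynomial.C_dvd_iff_dvd_coeff] at hX
  have h3 := hX 1
  rw [coeff_X_one] at h3
  have hu : IsUnit (g.coeff 0) := isUnit_of_dvd_one h3
  have hgu : IsUnit g := by
    rw [Polynomial.eq_C_of_natDegree_eq_zero hdeg]
    exact Polynomial.isUnit_C.2 hu
  have h4 : (1 : ℤ[X]) ∈ Ideal.span {(2 : ℤ[X]), X} := by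
    have h5 : g ∈ Ideal.span {(2 : ℤ[X]), X} := (e 1).2
    rw [Ideal.eq_top_of_isUnit_mem _ h5 hgu]
    trivial
  rw [Ideal.mem_span_pair] at h4
  obtain ⟨a, b, hab⟩ := h4
  have h6 := congrArg (Polynomial.eval 0) hab
  simp at h6
  omega

theorem dom_tf (a x : ℤ[X]) (ha : a ≠ 0) (hax : a • x = 0) : x = 0 := by
  rcases mul_eq_zero.1 hax with h | h
  · exact absurd h ha
  · exact h

/-- the map `ℤ[X]² → (2, X)` -/
noncomputable def qmap : ℤ[X] × ℤ[X] →ₗ[ℤ[X]] (Ideal.span {(2 : ℤ[X]), X}) :=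
  LinearMap.codRestrict (Ideal.span {(2 : ℤ[X]), X})
    ((2 : ℤ[X]) • LinearMap.fst ℤ[X] ℤ[X] ℤ[X] + (X : ℤ[X]) • LinearMap.snd ℤ[X] ℤ[X] ℤ[X])
    (fun c => (Ideal.span {(2 : ℤ[X]), X}).add_mem
      ((Ideal.span {(2 : ℤ[X]), X}).mul_mem_right _ (Ideal.subset_span (Set.mem_insert _ _)))
      ((Ideal.span {(2 : ℤ[X]), X}).mul_mem_right _
        (Ideal.subset_span (Set.mem_insert_of_mem _ rfl))))

/-- the kernel of `qmap` -/
noncomputable def kmap : ℤ[X] →ₗ[ℤ[X]] ℤ[X] × ℤ[X] :=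
  LinearMap.toSpanSingleton ℤ[X] (ℤ[X] × ℤ[X]) (X, -2)

theorem qmap_kmap (x : ℤ[X]) : qmap (kmap x) = 0 := by
  apply Subtype.ext
  show 2 * (x * X) + X * (x * (-2)) = (0 : ℤ[X])
  ring

theorem kmap_inj : Function.Injective kmap := by
  intro x y hxy
  have h1 : x * (X : ℤ[X]) = y * X := congrArg Prod.fst hxy
  exact mul_right_cancel₀ X_ne_zero h1

theorem qmap_surj : Function.Surjective qmap := by
  rintro ⟨z, hz⟩
  obtain ⟨a, b, hab⟩ := Ideal.mem_span_pair.1 hz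
  refine ⟨(a, b), Subtype.ext ?_⟩
  show 2 * a + X * b = z
  rw [← hab]; ring

theorem qmap_exact (y : ℤ[X] × ℤ[X]) (hy : qmap y = 0) : ∃ x, kmap x = y := by
  obtain ⟨a, b⟩ := y
  have h1 : 2 * a + X * b = (0 : ℤ[X]) := congrArg Subtype.val hy
  have h2 : (X : ℤ[X]) ∣ C 2 * a := ⟨-b, by
    have : (C 2 : ℤ[X]) = 2 := rfl
    rw [this]; linear_combination h1⟩
  rcases Polynomial.prime_X.dvd_or_dvd h2 with h3 | ⟨r, hr⟩
  · rw [Polynomial.X_dvd_iff] at h3
    simp at h3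
  · refine ⟨r, Prod.ext ?_ ?_⟩
    · show r * X = a
      rw [hr]; ring
    · show r * (-2) = b
      have h4 : X * (r * (-2)) = X * b := by
        rw [hr] at h1
        linear_combination -h1
      exact mul_left_cancel₀ X_ne_zero h4

theorem tf_poly_not_jordanHolder : ¬ JordanHolder (torsTP ℤ[X]).F.FullSubcategory := by
  intro hJH
  have hI : ∀ (a : ℤ[X]) (x : Ideal.span {(2 : ℤ[X]), X}), a ≠ 0 → a • x = 0 → x = 0 :=
    fun a x ha hax => Subtype.ext (dom_tf a x ha (congrArg Subtype.val hax))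
  have hV : ∀ (a : ℤ[X]) (x : ℤ[X] × ℤ[X]), a ≠ 0 → a • x = 0 → x = 0 := fun a x ha hax =>
    Prod.ext (dom_tf a _ ha (congrArg Prod.fst hax)) (dom_tf a _ ha (congrArg Prod.snd hax))
  have hP : ∀ (a : ℤ[X]) (x : PUnit.{1}), a ≠ 0 → a • x = 0 → x = 0 := fun _ _ _ _ => rfl
  have hO : IsZero (tfOf (R := ℤ[X]) PUnit.{1} hP) := by
    rw [IsZero.iff_id_eq_zero]
    apply ObjectProperty.hom_ext
    apply FGModuleCat.hom_ext
    apply LinearMap.ext
    intro x
    rfl
  have hU : IsSimple (tfOf ℤ[X] dom_tf) := tfOf_isSimple _ (1 : ℤ[X]) one_ne_zero (fun y z hy =>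
    ⟨y, z, hy, mul_comm (y : ℤ[X]) z⟩)
  have hXI : (X : ℤ[X]) ∈ Ideal.span {(2 : ℤ[X]), X} := Ideal.subset_span (by simp)
  have hJ : IsSimple (tfOf (Ideal.span {(2 : ℤ[X]), X}) hI) :=
    tfOf_isSimple _ (⟨X, hXI⟩ : Ideal.span {(2 : ℤ[X]), X})
      (fun h => X_ne_zero (congrArg Subtype.val h))
      (fun y z hy => ⟨y.1, z.1, fun h => hy (Subtype.ext h), Subtype.ext (mul_comm y.1 z.1)⟩)
  have hk₁ := tfMap_isKerCok dom_tf hV dom_tf (LinearMap.inl ℤ[X] ℤ[X] ℤ[X])
    (LinearMap.snd ℤ[X] ℤ[X] ℤ[X]) (fun x => rfl) LinearMap.inl_injective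
    LinearMap.snd_surjective (by
      rintro ⟨y₁, y₂⟩ hy
      exact ⟨y₁, Prod.ext rfl (Eq.symm hy)⟩)
  have hk₂ := tfMap_isKerCok dom_tf hV hI kmap qmap qmap_kmap kmap_inj qmap_surj qmap_exact
  obtain ⟨σ, hσ⟩ := hJH _ (CompSeries.two _ _ hk₁ hU hU hO) (CompSeries.two _ _ hk₂ hU hJ hO)
  have hσ' : ∀ i : Fin 2, Nonempty ((![tfOf ℤ[X] dom_tf, tfOf ℤ[X] dom_tf] i : _) ≅
    (![tfOf ℤ[X] dom_tf, tfOf (Ideal.span {(2 : ℤ[X]), X}) hI] ((σ i : Fin 2)) : _)) := hσ
  have e2 : ∀ j : Fin 2, (![tfOf ℤ[X] dom_tf, tfOf ℤ[X] dom_tf] j : _) = tfOf ℤ[X] dom_tf := by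
    intro j
    fin_cases j <;> rfl
  obtain ⟨i, hi⟩ := σ.surjective (1 : Fin 2)
  obtain ⟨e⟩ := hσ' i
  rw [e2] at e
  have e1 : tfOf ℤ[X] dom_tf ≅ (![tfOf ℤ[X] dom_tf, tfOf (Ideal.span {(2 : ℤ[X]), X}) hI]
    (1 : Fin 2) : _) := e.trans (eqToIso (congrArg _ hi))
  have e3 : tfOf ℤ[X] dom_tf ≅ tfOf (Ideal.span {(2 : ℤ[X]), X}) hI := e1
  exact not_iso_ideal (FGModuleCat.isoToLinearEquiv ((torsTP ℤ[X]).F.ι.mapIso e3))

end Poly

end LaxStab
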