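import Pool.Agent.R708.LS.Stab
import Pool.Agent.R708.LS.Poly

/-!
The lax stability condition on `D^b(mod ℤ[X])` whose slice of phase `1/2` fails the
Jordan-Hölder property.
-/

open CategoryTheory Limits Pretriangulated Triangulated ZeroObject DerivedCategory

namespace LaxStab

open Polynomial

theorem main : letI : HasDerivedCategory.{1} (FGModuleCat.{0} ℤ[X]) :=
      HasDerivedCategory.standard _
    ¬ JordanHolder ((theStab ℤ[X]).slicing.P (1 / 2 - ((0 : ℤ) : ℝ))).FullSubcategory ∧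
      ∀ c, (theStab ℤ[X]).slicing.P (1 / 2 - ((0 : ℤ) : ℝ)) c → ¬ IsZero c →
        (theStab ℤ[X]).Z ((theStab ℤ[X]).v (K0.cls c)) ≠ 0 := by
  letI : HasDerivedCategory.{1} (FGModuleCat.{0} ℤ[X]) := HasDerivedCategory.standard _
  exact ⟨not_jordanHolder_slice (hiBd (FGModuleCat.{0} ℤ[X])) (torsTP ℤ[X])
    tf_poly_not_jordanHolder, fun c hc hc0 => theStab_massive c hc hc0⟩

end LaxStab
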