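import Pool.Agent.R708.LS.Tors

/-!
Transport of composition series along equivalences, and the slice of torsion-free objects.
-/

open CategoryTheory Limits Pretriangulated Triangulated ZeroObject

namespace LaxStab

set_option linter.unusedSectionVars false

universe v u v' u'

section Transport

variable {D₁ : Type u} [Category.{v} D₁] [HasZeroMorphisms D₁]
  {D₂ : Type u'} [Category.{v'} D₂] [HasZeroMorphisms D₂]
  (E : D₁ ⥤ D₂) [E.Full] [E.Faithful] [E.EssSurj] [E.PreservesZeroMorphisms]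

theorem IsKerCok.map {A B Q : D₁} {i : A ⟶ B} {p : B ⟶ Q} (h : IsKerCok i p) :
    IsKerCok (E.map i) (E.map p) where
  zero := by rw [← E.map_comp, h.zero, E.map_zero]
  ker W f hf := by
    let e := E.objObjPreimageIso W
    obtain ⟨f', hf'⟩ := E.map_surjective (e.hom ≫ f)
    have h1 : f' ≫ p = 0 := E.map_injective (by
      rw [E.map_comp, hf', Category.assoc, hf, comp_zero, E.map_zero])
    obtain ⟨g, hg, hu⟩ := h.ker _ f' h1
    refine ⟨e.inv ≫ E.map g, ?_, ?_⟩
    · show (e.inv ≫ E.map g) ≫ E.map i = f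
      rw [Category.assoc, ← E.map_comp, hg, hf', Iso.inv_hom_id_assoc]
    · intro g' hg'
      obtain ⟨g'', hg''⟩ := E.map_surjective (e.hom ≫ g')
      have h2 : g'' = g := hu _ (E.map_injective (by
        rw [E.map_comp, hg'', Category.assoc, hf']
        exact congrArg _ hg'))
      rw [← h2, hg'', Iso.inv_hom_id_assoc]
  cok W f hf := by
    let e := E.objObjPreimageIso W
    obtain ⟨f', hf'⟩ := E.map_surjective (f ≫ e.inv)
    have h1 : i ≫ f' = 0 := E.map_injective (by
      rw [E.map_comp, hf', reassoc_of% hf, zero_comp, E.map_zero])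
    obtain ⟨g, hg, hu⟩ := h.cok _ f' h1
    refine ⟨E.map g ≫ e.hom, ?_, ?_⟩
    · show E.map p ≫ E.map g ≫ e.hom = f
      rw [← E.map_comp_assoc, hg, hf', Category.assoc, Iso.inv_hom_id, Category.comp_id]
    · intro g' hg'
      obtain ⟨g'', hg''⟩ := E.map_surjective (g' ≫ e.inv)
      have h2 : g'' = g := hu _ (E.map_injective (by
        rw [E.map_comp, hg'', hf', ← Category.assoc]
        exact congrArg (· ≫ e.inv) hg'))
      rw [← h2, hg'', Category.assoc, Iso.inv_hom_id, Category.comp_id]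

theorem IsKerCok.of_map {A B Q : D₁} {i : A ⟶ B} {p : B ⟶ Q} (h : IsKerCok (E.map i) (E.map p)) :
    IsKerCok i p where
  zero := E.map_injective (by rw [E.map_comp, h.zero, E.map_zero])
  ker W f hf := by
    obtain ⟨g, hg, hu⟩ := h.ker (E.obj W) (E.map f) (by rw [← E.map_comp, hf, E.map_zero])
    obtain ⟨g', rfl⟩ := E.map_surjective g
    refine ⟨g', E.map_injective (by rw [E.map_comp]; exact hg), fun g'' h'' => ?_⟩
    exact E.map_injective (hu _ (by show E.map g'' ≫ E.map i = _; rw [← E.map_comp, h'']))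
  cok W f hf := by
    obtain ⟨g, hg, hu⟩ := h.cok (E.obj W) (E.map f) (by rw [← E.map_comp, hf, E.map_zero])
    obtain ⟨g', rfl⟩ := E.map_surjective g
    refine ⟨g', E.map_injective (by rw [E.map_comp]; exact hg), fun g'' h'' => ?_⟩
    exact E.map_injective (hu _ (by show E.map p ≫ E.map g'' = _; rw [← E.map_comp, h'']))

theorem IsKerCok.of_isos {A B Q A' Q' : D₁} {i : A ⟶ B} {p : B ⟶ Q} (h : IsKerCok i p)
    (e : A' ≅ A) (e' : Q ≅ Q') : IsKerCok (e.hom ≫ i) (p ≫ e'.hom) where
  zero := by rw [Category.assoc, reassoc_of% h.zero, zero_comp, comp_zero]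
  ker W f hf := by
    obtain ⟨g, hg, hu⟩ := h.ker W f (by
      rw [← cancel_mono e'.hom, Category.assoc, hf, zero_comp])
    refine ⟨g ≫ e.inv, ?_, ?_⟩
    · show (g ≫ e.inv) ≫ e.hom ≫ i = f
      simpa using hg
    · intro g' hg'
      have := hu (g' ≫ e.hom) (by simpa using hg')
      rw [← this]; simp
  cok W f hf := by
    obtain ⟨g, hg, hu⟩ := h.cok W f (by
      rw [← cancel_epi e.hom, ← Category.assoc, hf, comp_zero])
    refine ⟨e'.inv ≫ g, ?_, ?_⟩
    · show (p ≫ e'.hom) ≫ e'.inv ≫ g = f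
      simpa using hg
    · intro g' hg'
      have := hu (e'.hom ≫ g') (by simpa using hg')
      rw [← this]; simp

theorem IsStrictMono.map {A B : D₁} {i : A ⟶ B} (h : IsStrictMono i) :
    IsStrictMono (E.map i) := by
  obtain ⟨Q, p, hp⟩ := h
  exact ⟨_, _, hp.map E⟩

theorem isZero_of_map {X : D₁} (h : IsZero (E.obj X)) : IsZero X := by
  rw [IsZero.iff_id_eq_zero]
  apply E.map_injective
  exact h.eq_of_src _ _

theorem IsSimple.map {S : D₁} (h : IsSimple S) : IsSimple (E.obj S) := by
  refine ⟨fun h0 => h.1 (isZero_of_map E h0), ?_⟩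
  rintro A i ⟨Q, p, hp⟩
  let e := E.objObjPreimageIso A
  let e' := E.objObjPreimageIso Q
  obtain ⟨i', hi'⟩ := E.map_surjective (e.hom ≫ i)
  obtain ⟨p', hp'⟩ := E.map_surjective (p ≫ e'.inv)
  have h1 : IsKerCok (E.map i') (E.map p') := by
    rw [hi', hp']
    exact hp.of_isos e e'.symm
  rcases h.2 _ i' ⟨_, p', h1.of_map E⟩ with h2 | h2
  · exact Or.inl ((E.map_isZero h2).of_iso e.symm)
  · right
    have h3 : i = e.inv ≫ E.map i' := by rw [hi', Iso.inv_hom_id_assoc]
    rw [h3]
    infer_instance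

/-- transport of a composition series -/
def CompSeries.map {X : D₁} (a : CompSeries X) : CompSeries (E.obj X) where
  n := a.n
  obj i := E.obj (a.obj i)
  incl i := E.map (a.incl i)
  strict i := (a.strict i).map E
  bot := E.map_isZero a.bot
  top := by
    have := a.top
    infer_instance
  step i := E.map (a.step i)
  comm i := by rw [← E.map_comp, a.comm]
  factor i := E.obj (a.factor i)
  proj i := E.map (a.proj i)
  quot i := (a.quot i).map E
  simple i := (a.simple i).map E

include E in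
theorem JordanHolder.of_equiv (h : JordanHolder D₂) : JordanHolder D₁ := by
  intro X a b
  obtain ⟨σ, hσ⟩ := h (E.obj X) (a.map E) (b.map E)
  refine ⟨σ, fun i => ?_⟩
  obtain ⟨e⟩ := hσ i
  exact ⟨E.preimageIso e⟩

theorem isKerCok_zero_id {Z X : D₁} (hZ : IsZero Z) (z : Z ⟶ X) : IsKerCok z (𝟙 X) where
  zero := hZ.eq_of_src _ _
  ker W f hf := by
    rw [Category.comp_id] at hf
    exact ⟨0, by rw [hf]; exact zero_comp, fun g _ => hZ.eq_of_tgt _ _⟩
  cok W f _ := ⟨f, Category.id_comp f, fun g hg => by rw [← hg]; exact (Category.id_comp g).symm⟩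

theorem isKerCok_id_zero {Z X : D₁} (hZ : IsZero Z) (z : X ⟶ Z) : IsKerCok (𝟙 X) z where
  zero := hZ.eq_of_tgt _ _
  ker W f _ := ⟨f, Category.comp_id f, fun g hg => by rw [← hg]; exact (Category.comp_id g).symm⟩
  cok W f hf := by
    rw [Category.id_comp] at hf
    exact ⟨0, by rw [hf]; exact comp_zero, fun g _ => hZ.eq_of_src _ _⟩

/-- A composition series of length two. -/
def CompSeries.two {Z X₁ X X₂ : D₁} (i : X₁ ⟶ X) (p : X ⟶ X₂) (h : IsKerCok i p)
    (h1 : IsSimple X₁) (h2 : IsSimple X₂) (hZ : IsZero Z) : CompSeries X where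
  n := 2
  obj := ![Z, X₁, X]
  incl := fun
    | 0 => (0 : Z ⟶ X)
    | 1 => i
    | 2 => 𝟙 X
  strict := fun
    | 0 => ⟨X, 𝟙 X, isKerCok_zero_id hZ _⟩
    | 1 => ⟨X₂, p, h⟩
    | 2 => ⟨Z, 0, isKerCok_id_zero hZ _⟩
  bot := hZ
  top := inferInstanceAs (IsIso (𝟙 X))
  step := fun
    | 0 => (0 : Z ⟶ X₁)
    | 1 => i
  comm := fun
    | 0 => hZ.eq_of_src _ _
    | 1 => Category.comp_id i
  factor := ![X₁, X₂]
  proj := fun
    | 0 => 𝟙 X₁
    | 1 => p
  quot := fun
    | 0 => isKerCok_zero_id hZ _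
    | 1 => h
  simple := fun
    | 0 => h1
    | 1 => h2

end Transport

section Slice

variable {C : Type u} [Category.{v} C] [HasZeroObject C] [HasShift C ℤ] [Preadditive C]
  [∀ n : ℤ, (shiftFunctor C n).Additive] [Pretriangulated C]
  {A : Type u'} [Category.{v'} A] [Abelian A] {t : TStructure C} (I : HI A t) (tp : TP A)

/-- the torsion-free objects in the slice of phase `1/2` -/
def sliceE : tp.F.FullSubcategory ⥤ ((HTP.ofTP I tp).P (1 / 2 - ((0 : ℤ) : ℝ))).FullSubcategory where
  obj M := ⟨I.ι.obj M.obj, P_of_F _ 0 ⟨M.obj, M.property, ⟨(shiftFunctorZero C ℤ).app _⟩⟩⟩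
  map f := ObjectProperty.homMk (I.ι.map f.hom)
  map_id M := by
    apply ObjectProperty.hom_ext
    exact I.ι.map_id _
  map_comp f g := by
    apply ObjectProperty.hom_ext
    exact I.ι.map_comp _ _

instance : (sliceE I tp).Full where
  map_surjective {X Y} f := by
    have := I.full
    obtain ⟨g, hg⟩ := I.ι.map_surjective f.hom
    exact ⟨ObjectProperty.homMk g, ObjectProperty.hom_ext _ hg⟩

instance : (sliceE I tp).Faithful where
  map_injective {X Y} f g h := by
    have := I.faithful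
    apply ObjectProperty.hom_ext
    apply I.ι.map_injective
    exact congrArg (fun k => k.hom) h

instance : (sliceE I tp).EssSurj where
  mem_essImage W := by
    obtain ⟨M, hM, ⟨e⟩⟩ := W.property.2.1 0 rfl
    refine ⟨⟨M, hM⟩, ⟨ObjectProperty.isoMk _ ?_⟩⟩
    exact e.symm ≪≫ (shiftFunctorZero C ℤ).app _

instance : (sliceE I tp).PreservesZeroMorphisms where
  map_zero X Y := by
    have := I.additive
    apply ObjectProperty.hom_ext
    exact I.ι.map_zero _ _

theorem not_jordanHolder_slice (h : ¬ JordanHolder tp.F.FullSubcategory) :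
    ¬ JordanHolder ((HTP.ofTP I tp).P (1 / 2 - ((0 : ℤ) : ℝ))).FullSubcategory :=
  fun h' => h (JordanHolder.of_equiv (sliceE I tp) h')

end Slice

end LaxStab
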