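import Pool.Agent.R708.LS.Defs

/-!
The slicing attached to a torsion pair in the heart of a bounded t-structure.
-/

open CategoryTheory Limits Pretriangulated Triangulated

namespace LaxStab

universe v u

variable {C : Type u} [Category.{v} C] [HasZeroObject C] [HasShift C ℤ] [Preadditive C]
  [∀ n : ℤ, (shiftFunctor C n).Additive] [Pretriangulated C]

/-- A torsion pair in the heart of a t-structure. -/
structure HTP (t : TStructure C) where
  /-- torsion objects -/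
  T : ObjectProperty C
  /-- torsion-free objects -/
  F : ObjectProperty C
  isoT : ∀ X Y, T X → (X ≅ Y) → T Y
  isoF : ∀ X Y, F X → (X ≅ Y) → F Y
  zeroT : ∀ X, IsZero X → T X
  zeroF : ∀ X, IsZero X → F X
  sumT : ∀ (X Y : C) (b : BinaryBicone X Y), b.IsBilimit → T X → T Y → T b.pt
  sumF : ∀ (X Y : C) (b : BinaryBicone X Y), b.IsBilimit → F X → F Y → F b.pt
  leT : ∀ X, T X → t.IsLE X 0
  geT : ∀ X, T X → t.IsGE X 0
  leF : ∀ X, F X → t.IsLE X 0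
  geF : ∀ X, F X → t.IsGE X 0
  hom : ∀ X Y, T X → F Y → ∀ f : X ⟶ Y, f = 0
  dec : ∀ Y, t.IsLE Y 0 → t.IsGE Y 0 → ∃ (A B : C) (f : A ⟶ Y) (g : Y ⟶ B)
    (h : B ⟶ A⟦(1 : ℤ)⟧), T A ∧ F B ∧ Triangle.mk f g h ∈ distTriang C

variable {t : TStructure C} (H : HTP t)

/-- the slices -/
def HTP.P (φ : ℝ) : ObjectProperty C := fun X =>
  (∀ m : ℤ, φ = 1 - m → H.T (X⟦m⟧)) ∧ (∀ m : ℤ, φ = 1 / 2 - m → H.F (X⟦m⟧)) ∧
    ((∀ m : ℤ, φ ≠ 1 - m ∧ φ ≠ 1 / 2 - m) → IsZero X)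

theorem cast_ne (m n : ℤ) : (1 : ℝ) - m ≠ 1 / 2 - n := by
  intro h
  have h2 : (2 : ℝ) * m - 2 * n = 1 := by linarith
  have h3 : (2 : ℤ) * m - 2 * n = 1 := by exact_mod_cast h2
  omega

theorem P_of_T {X : C} (m : ℤ) (h : H.T (X⟦m⟧)) : H.P (1 - m) X := by
  refine ⟨fun n hn => ?_, fun n hn => absurd hn (cast_ne m n), fun hh => absurd rfl (hh m).1⟩
  have : m = n := by
    have : (m : ℝ) = n := by linarith
    exact_mod_cast this
  subst this; exact h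

theorem P_of_F {X : C} (m : ℤ) (h : H.F (X⟦m⟧)) : H.P (1 / 2 - m) X := by
  refine ⟨fun n hn => absurd hn.symm (cast_ne n m), fun n hn => ?_, fun hh => absurd rfl (hh m).2⟩
  have : m = n := by
    have : (m : ℝ) = n := by linarith
    exact_mod_cast this
  subst this; exact h

theorem P_cases {φ : ℝ} {X : C} (h : H.P φ X) :
    (∃ m : ℤ, φ = 1 - m ∧ H.T (X⟦m⟧)) ∨ (∃ m : ℤ, φ = 1 / 2 - m ∧ H.F (X⟦m⟧)) ∨ IsZero X := by
  by_cases h1 : ∃ m : ℤ, φ = 1 - m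
  · obtain ⟨m, hm⟩ := h1
    exact Or.inl ⟨m, hm, h.1 m hm⟩
  · by_cases h2 : ∃ m : ℤ, φ = 1 / 2 - m
    · obtain ⟨m, hm⟩ := h2
      exact Or.inr (Or.inl ⟨m, hm, h.2.1 m hm⟩)
    · push Not at h1 h2
      exact Or.inr (Or.inr (h.2.2 (fun m => ⟨h1 m, h2 m⟩)))

theorem P_iso {φ : ℝ} {X Y : C} (h : H.P φ X) (e : X ≅ Y) : H.P φ Y :=
  ⟨fun m hm => H.isoT _ _ (h.1 m hm) ((shiftFunctor C m).mapIso e),
    fun m hm => H.isoF _ _ (h.2.1 m hm) ((shiftFunctor C m).mapIso e),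
    fun hh => (h.2.2 hh).of_iso e.symm⟩

theorem P_zero {φ : ℝ} {X : C} (h : IsZero X) : H.P φ X :=
  ⟨fun m _ => H.zeroT _ ((shiftFunctor C m).map_isZero h),
    fun m _ => H.zeroF _ ((shiftFunctor C m).map_isZero h), fun _ => h⟩

theorem P_shift {φ : ℝ} {X : C} : H.P (φ + 1) (X⟦(1 : ℤ)⟧) ↔ H.P φ X := by
  have e : ∀ m : ℤ, (X⟦(1 : ℤ)⟧)⟦m⟧ ≅ X⟦m + 1⟧ := fun m =>
    ((shiftFunctorAdd' C 1 m (m + 1) (by ring)).app X).symm
  constructor
  · intro h
    refine ⟨fun m hm => ?_, fun m hm => ?_, fun hh => ?_⟩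
    · have := h.1 (m - 1) (by push_cast; linarith)
      exact H.isoT _ _ this ((e (m - 1)).trans (eqToIso (by rw [sub_add_cancel])))
    · have := h.2.1 (m - 1) (by push_cast; linarith)
      exact H.isoF _ _ this ((e (m - 1)).trans (eqToIso (by rw [sub_add_cancel])))
    · have h1 := h.2.2 (fun m => by
        have h2 := hh (m + 1)
        push_cast at h2
        refine ⟨fun h3 => h2.1 (by linarith), fun h3 => h2.2 (by linarith)⟩)
      have h2 : IsZero ((X⟦(1 : ℤ)⟧)⟦(-1 : ℤ)⟧) := (shiftFunctor C (-1 : ℤ)).map_isZero h1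
      exact h2.of_iso ((shiftEquiv C (1 : ℤ)).unitIso.app X)
  · intro h
    refine ⟨fun m hm => ?_, fun m hm => ?_, fun hh => ?_⟩
    · exact H.isoT _ _ (h.1 (m + 1) (by push_cast; linarith)) (e m).symm
    · exact H.isoF _ _ (h.2.1 (m + 1) (by push_cast; linarith)) (e m).symm
    · refine (shiftFunctor C (1 : ℤ)).map_isZero (h.2.2 (fun m => ?_))
      have h2 := hh (m - 1)
      push_cast at h2
      exact ⟨fun h3 => h2.1 (by linarith), fun h3 => h2.2 (by linarith)⟩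

theorem P_sum {φ : ℝ} {X Y : C} (b : BinaryBicone X Y) (hb : b.IsBilimit) (hX : H.P φ X)
    (hY : H.P φ Y) : H.P φ b.pt := by
  refine ⟨fun m hm => ?_, fun m hm => ?_, fun hh => ?_⟩
  · have := preservesBinaryBiproducts_of_preservesBiproducts (shiftFunctor C m)
    exact H.sumT _ _ _ (isBinaryBilimitOfPreserves (shiftFunctor C m) hb) (hX.1 m hm) (hY.1 m hm)
  · have := preservesBinaryBiproducts_of_preservesBiproducts (shiftFunctor C m)
    exact H.sumF _ _ _ (isBinaryBilimitOfPreserves (shiftFunctor C m) hb) (hX.2.1 m hm)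
      (hY.2.1 m hm)
  · have h1 := hX.2.2 hh
    have h2 := hY.2.2 hh
    rw [IsZero.iff_id_eq_zero]
    exact BinaryFan.IsLimit.hom_ext hb.isLimit (h1.eq_of_tgt _ _) (h2.eq_of_tgt _ _)

theorem P_hom {φ₁ φ₂ : ℝ} {X Y : C} (h : φ₂ < φ₁) (hX : H.P φ₁ X) (hY : H.P φ₂ Y) (f : X ⟶ Y) :
    f = 0 := by
  have key : ∀ m n : ℤ, m < n → t.IsLE (X⟦m⟧) 0 → t.IsGE (Y⟦n⟧) 0 → f = 0 := by
    intro m n hmn h1 h2
    have h3 : t.IsLE X m := t.isLE_of_shift X m m 0 (by omega)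
    have h4 : t.IsGE Y n := t.isGE_of_shift Y n n 0 (by omega)
    exact t.zero_of_isLE_of_isGE f m n hmn h3 h4
  rcases P_cases H hX with ⟨m, hm, h1⟩ | ⟨m, hm, h1⟩ | h1
  · rcases P_cases H hY with ⟨n, hn, h2⟩ | ⟨n, hn, h2⟩ | h2
    · refine key m n ?_ (H.leT _ h1) (H.geT _ h2)
      have : (m : ℝ) < n := by linarith
      exact_mod_cast this
    · have h3 : (m : ℝ) < n + 1 := by linarith
      have h4 : m < n + 1 := by exact_mod_cast h3
      rcases lt_or_eq_of_le (Int.lt_add_one_iff.1 h4) with h5 | h5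
      · exact key m n h5 (H.leT _ h1) (H.geF _ h2)
      · subst h5
        apply (shiftFunctor C m).map_injective
        rw [H.hom _ _ h1 h2 ((shiftFunctor C m).map f), Functor.map_zero]
    · exact h2.eq_of_tgt f 0
  · rcases P_cases H hY with ⟨n, hn, h2⟩ | ⟨n, hn, h2⟩ | h2
    · refine key m n ?_ (H.leF _ h1) (H.geT _ h2)
      have : (m : ℝ) < n := by linarith
      exact_mod_cast this
    · refine key m n ?_ (H.leF _ h1) (H.geF _ h2)
      have : (m : ℝ) < n := by linarith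
      exact_mod_cast this
    · exact h2.eq_of_tgt f 0
  · exact h1.eq_of_src f 0

theorem HNFilt.of_iso {P : ℝ → ObjectProperty C} {X Y : C} {L : List ℝ} (h : HNFilt P X L)
    (e : X ≅ Y) : HNFilt P Y L := by
  cases h with
  | zero X h => exact HNFilt.zero _ (h.of_iso e.symm)
  | step X' X A φ L f g h dist hX' hA hA0 hφ =>
    refine HNFilt.step X' Y A φ L (f ≫ e.hom) (e.inv ≫ g) h ?_ hX' hA hA0 hφ
    refine isomorphic_distinguished _ dist _ ?_
    exact Triangle.isoMk _ _ (Iso.refl _) e.symm (Iso.refl _)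
      (by show (f ≫ e.hom) ≫ e.inv = 𝟙 _ ≫ f; simp)
      (by show (e.inv ≫ g) ≫ 𝟙 _ = e.inv ≫ g; simp)
      (by show h ≫ (𝟙 X')⟦(1 : ℤ)⟧' = 𝟙 _ ≫ h; simp)

theorem HNFilt.extend {P : ℝ → ObjectProperty C} {X' X A : C} {L : List ℝ} {f : X' ⟶ X}
    {g : X ⟶ A} {h : A ⟶ X'⟦(1 : ℤ)⟧} (dist : Triangle.mk f g h ∈ distTriang C) {φ : ℝ}
    (hX' : HNFilt P X' L) (hA : P φ A) (hφ : ∀ ψ ∈ L, φ < ψ) :
    ∃ L', HNFilt P X L' ∧ ∀ ψ ∈ L', φ ≤ ψ := by
  by_cases hA0 : IsZero A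
  · have : IsIso f := (Triangle.isZero₃_iff_isIso₁ _ dist).1 hA0
    exact ⟨L, hX'.of_iso (asIso f), fun ψ hψ => (hφ ψ hψ).le⟩
  · refine ⟨φ :: L, HNFilt.step X' X A φ L f g h dist hX' hA hA0 hφ, fun ψ hψ => ?_⟩
    rcases List.mem_cons.1 hψ with rfl | h
    · exact le_rfl
    · exact (hφ ψ h).le

set_option backward.defeqAttrib.useBackward true in
theorem dec_shift (n : ℤ) (Y : C) (h1 : t.IsLE Y n) (h2 : t.IsGE Y n) :
    ∃ (A B : C) (f : A ⟶ Y) (g : Y ⟶ B) (h : B ⟶ A⟦(1 : ℤ)⟧), H.T (A⟦n⟧) ∧ H.F (B⟦n⟧) ∧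
      Triangle.mk f g h ∈ distTriang C := by
  obtain ⟨A₀, B₀, f, g, h, hA, hB, mem⟩ := H.dec (Y⟦n⟧) (t.isLE_shift Y n n 0 (by omega))
    (t.isGE_shift Y n n 0 (by omega))
  let T := (Triangle.shiftFunctor C (-n)).obj (Triangle.mk f g h)
  let e : Y⟦n⟧⟦-n⟧ ≅ Y := (shiftEquiv C n).unitIso.symm.app Y
  have hT' : Triangle.mk (T.mor₁ ≫ e.hom) (e.inv ≫ T.mor₂) T.mor₃ ∈ distTriang C := by
    refine isomorphic_distinguished _ (Triangle.shift_distinguished _ mem (-n)) _ ?_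
    refine Triangle.isoMk _ _ (Iso.refl _) e.symm (Iso.refl _) ?_ ?_ ?_
    all_goals simp [T]
  refine ⟨_, _, _, _, _, ?_, ?_, hT'⟩
  · exact H.isoT _ _ hA ((shiftEquiv C n).counitIso.symm.app A₀)
  · exact H.isoF _ _ hB ((shiftEquiv C n).counitIso.symm.app B₀)

theorem hn_aux [IsTriangulated C] (k : ℕ) : ∀ (b : ℤ) (X : C), t.IsLE X b →
    t.IsGE X (b - k + 1) → ∃ L, HNFilt H.P X L ∧ ∀ ψ ∈ L, (1 : ℝ) / 2 - b ≤ ψ := by
  induction k with
  | zero =>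
    intro b X h1 h2
    have : t.IsGE X (b + 1) := by simpa using h2
    exact ⟨[], HNFilt.zero _ (t.isZero X b (b + 1) (by omega)), by simp⟩
  | succ k ih =>
    intro b X h1 h2
    have hdist := t.triangleLEGE_distinguished (b - 1) b (by omega) X
    have hle : t.IsLE ((t.truncLE (b - 1)).obj X) (b - 1) := inferInstance
    have hge : t.IsGE ((t.truncLE (b - 1)).obj X) (b - 1 - k + 1) := by
      have : t.IsGE X (b - 1 - k + 1) := by
        have e : b - 1 - (k : ℤ) + 1 = b - ((k + 1 : ℕ) : ℤ) + 1 := by push_cast; ring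
        rw [e]; exact h2
      infer_instance
    obtain ⟨L, hL, hLψ⟩ := ih (b - 1) _ hle hge
    have hY1 : t.IsLE ((t.truncGE b).obj X) b := by
      have e := (t.truncGTIsoTruncGE (b - 1) b (by omega)).app X
      have : t.IsLE ((t.truncGT (b - 1)).obj X) b := inferInstance
      exact t.isLE_of_iso e b
    have hY2 : t.IsGE ((t.truncGE b).obj X) b := inferInstance
    obtain ⟨A, B, f, g, h, hA, hB, hAB⟩ := dec_shift H b _ hY1 hY2
    -- the fibre of `X ⟶ B`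
    let u₁₂ : X ⟶ (t.truncGE b).obj X := (t.truncGEπ b).app X
    obtain ⟨X'', v, w, h13⟩ := distinguished_cocone_triangle₁ (u₁₂ ≫ g)
    obtain ⟨L₁, hL₁, hψ₁⟩ : ∃ L₁, HNFilt H.P X'' L₁ ∧ ∀ ψ ∈ L₁, (1 : ℝ) - b ≤ ψ := by
      have oct := someOctahedron' (u₁₂ := u₁₂) (u₂₃ := g) rfl hdist hAB h13
      exact HNFilt.extend oct.mem hL (P_of_T H b hA) (fun ψ hψ => by
        have := hLψ ψ hψ
        push_cast at this
        linarith)
    obtain ⟨L₂, hL₂, hψ₂⟩ := HNFilt.extend h13 hL₁ (P_of_F H b hB) (fun ψ hψ => by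
      have := hψ₁ ψ hψ
      linarith)
    exact ⟨L₂, hL₂, hψ₂⟩

/-- the slicing of a torsion pair in the heart of a bounded t-structure -/
def HTP.slicing [IsTriangulated C] (hb : ∀ X : C, ∃ a b : ℤ, t.IsGE X a ∧ t.IsLE X b) :
    Slicing C where
  P := H.P
  iso_closed φ X Y h e := P_iso H h e
  zero_mem φ X h := P_zero H h
  sum_mem φ X Y b hb h1 h2 := P_sum H b hb h1 h2
  shift φ X := P_shift H
  hom_zero φ₁ φ₂ X Y h h1 h2 f := P_hom H h h1 h2 f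
  hn X := by
    obtain ⟨a, b, h1, h2⟩ := hb X
    obtain ⟨L, hL, _⟩ := hn_aux H (b - a + 1).toNat b X h2 (by
      have : t.IsGE X (b - ((b - a + 1).toNat : ℤ) + 1) := t.isGE_of_ge X _ a (by omega)
      exact this)
    exact ⟨L, hL⟩

end LaxStab
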