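import Pool.Agent.R708.LS.Chi

/-!
The lax stability condition.
-/

open CategoryTheory Limits Pretriangulated Triangulated ZeroObject DerivedCategory

open scoped TensorProduct

namespace LaxStab

set_option linter.unusedSectionVars false

universe w

section Stab

variable (R : Type) [CommRing R] [IsDomain R] [IsNoetherianRing R]
  [HasDerivedCategory.{w} (FGModuleCat.{0} R)]

/-- the torsion pair in the heart of the bounded derived category -/
noncomputable abbrev theH :
    HTP (TStructure.onBounded (DerivedCategory.TStructure.t (C := FGModuleCat.{0} R))) :=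
  HTP.ofTP (hiBd (FGModuleCat.{0} R)) (torsTP R)

variable {R}

theorem chi_T (X : DerivedCategory.Bounded (FGModuleCat.{0} R)) (h : (theH R).T X) :
    chi X.obj = 0 := by
  obtain ⟨M, hM, ⟨e⟩⟩ := h
  have e' : X.obj ≅ (singleFunctor (FGModuleCat.{0} R) 0).obj M :=
    (DerivedCategory.TStructure.t (C := FGModuleCat.{0} R)).bounded.ι.mapIso e
  rw [chi_iso e', chi_single, rk_eq_zero]
  exact hM

theorem chi_F (X : DerivedCategory.Bounded (FGModuleCat.{0} R)) (h : (theH R).F X) :
    0 ≤ chi X.obj ∧ (¬ IsZero X → chi X.obj ≠ 0) := by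
  obtain ⟨M, hM, ⟨e⟩⟩ := h
  have e' : X.obj ≅ (singleFunctor (FGModuleCat.{0} R) 0).obj M :=
    (DerivedCategory.TStructure.t (C := FGModuleCat.{0} R)).bounded.ι.mapIso e
  rw [chi_iso e', chi_single]
  refine ⟨by unfold rk; exact Int.natCast_nonneg _, fun h0 h1 => h0 ?_⟩
  rw [rk_eq_zero] at h1
  have h2 : IsZero M := by
    rw [fg_zero_iff]
    intro x
    obtain ⟨a, ha, hax⟩ := h1 x
    exact hM a x ha hax
  have := (hiBd (FGModuleCat.{0} R)).additive
  exact ((hiBd (FGModuleCat.{0} R)).ι.map_isZero h2).of_iso e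

theorem chi_shiftB (X : DerivedCategory.Bounded (FGModuleCat.{0} R)) (m : ℤ) :
    chi (X⟦m⟧).obj = (m.negOnePow : ℤ) * chi X.obj := by
  rw [← chi_shift]
  exact chi_iso (((DerivedCategory.TStructure.t (C := FGModuleCat.{0} R)).bounded.ι.commShiftIso
    m).app X)

theorem negOnePow_mul_self (m : ℤ) : (m.negOnePow : ℤ) * (m.negOnePow : ℤ) = 1 := by
  rw [← Units.val_mul, ← Int.negOnePow_add, ← two_mul, Int.negOnePow_two_mul]
  rfl

theorem chi_of_P {φ : ℝ} {X : DerivedCategory.Bounded (FGModuleCat.{0} R)} (h : (theH R).P φ X)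
    (h0 : ¬ IsZero X) : ∃ m : ℝ, 0 ≤ m ∧
      ((chi X.obj : ℤ) : ℂ) * Complex.I = m * Complex.exp (Real.pi * φ * Complex.I) := by
  rcases P_cases _ h with ⟨m, hm, h1⟩ | ⟨m, hm, h1⟩ | h1
  · refine ⟨0, le_rfl, ?_⟩
    have h2 := chi_T _ h1
    rw [chi_shiftB] at h2
    have h3 : chi X.obj = 0 := by
      have := congrArg (fun k => (m.negOnePow : ℤ) * k) h2
      simp only [← mul_assoc, negOnePow_mul_self, one_mul, mul_zero] at this
      exact this
    rw [h3]; simp
  · refine ⟨((chi (X⟦m⟧).obj : ℤ) : ℝ), by exact_mod_cast (chi_F _ h1).1, ?_⟩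
    rw [chi_shiftB, hm]
    have e1 : (Real.pi : ℂ) * ((1 / 2 - m : ℝ) : ℂ) * Complex.I =
        Real.pi / 2 * Complex.I - m * (Real.pi * Complex.I) := by
      push_cast; ring
    rw [e1, Complex.exp_sub, Complex.exp_pi_div_two_mul_I, Complex.exp_int_mul,
      Complex.exp_pi_mul_I]
    rcases Int.even_or_odd m with hm' | hm'
    · rw [Int.negOnePow_even m hm', hm'.neg_one_zpow]
      push_cast; ring
    · rw [Int.negOnePow_odd m hm', hm'.neg_one_zpow]
      push_cast; ring
  · exact absurd h1 h0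

variable (R) in
/-- The lax stability condition on `D^b(mod R)`: the slices are the shifts of the torsion modules
(phase `1`) and of the torsion-free modules (phase `1/2`), and the charge of an object is `i` times
its rank. -/
noncomputable def theStab : LaxStability (DerivedCategory.Bounded (FGModuleCat.{0} R)) where
  slicing := (theH R).slicing (bd_bounded _)
  Λ := ℤ
  nrm := (normSeminorm ℝ ℝ).comp (TensorProduct.AlgebraTensorModule.rid ℤ ℝ ℝ).toLinearMap
  nrm_pos x hx := by
    have h1 : ‖TensorProduct.AlgebraTensorModule.rid ℤ ℝ ℝ x‖ = 0 := hx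
    rw [norm_eq_zero] at h1
    exact (LinearEquiv.map_eq_zero_iff _).1 h1
  v := vchi R
  Z := (AddMonoidHom.mulRight Complex.I).comp (Int.castAddHom ℂ)
  phase φ c hc hc0 := by
    obtain ⟨m, hm, h⟩ := chi_of_P hc hc0
    refine ⟨m, hm, ?_⟩
    rw [← h, vchi_cls]
    rfl
  K := 1
  K_pos := one_pos
  support φ s _ _ := by
    rw [vchi_cls, div_one]
    have h1 : ((normSeminorm ℝ ℝ).comp (TensorProduct.AlgebraTensorModule.rid ℤ ℝ ℝ).toLinearMap)
        (1 ⊗ₜ[ℤ] chi s.obj.obj) = ‖((chi s.obj.obj : ℤ) : ℝ)‖ := by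
      show ‖TensorProduct.AlgebraTensorModule.rid ℤ ℝ ℝ (1 ⊗ₜ[ℤ] chi s.obj.obj)‖ = _
      rw [TensorProduct.AlgebraTensorModule.rid_tmul]
      simp
    rw [h1]
    have h2 : ((AddMonoidHom.mulRight Complex.I).comp (Int.castAddHom ℂ)) (chi s.obj.obj) =
        ((chi s.obj.obj : ℤ) : ℂ) * Complex.I := rfl
    rw [h2, norm_mul, Complex.norm_I, mul_one]
    simp

theorem theStab_massive (X : DerivedCategory.Bounded (FGModuleCat.{0} R))
    (h : (theStab R).slicing.P (1 / 2 - ((0 : ℤ) : ℝ)) X) (h0 : ¬ IsZero X) :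
    (theStab R).Z ((theStab R).v (K0.cls X)) ≠ 0 := by
  have h1 : (theH R).F (X⟦(0 : ℤ)⟧) := h.2.1 0 rfl
  have h2 := (chi_F _ h1).2 (fun h2 => h0 (h2.of_iso ((shiftFunctorZero _ ℤ).app X).symm))
  rw [chi_shiftB, Int.negOnePow_zero] at h2
  show ((vchi R (K0.cls X) : ℤ) : ℂ) * Complex.I ≠ 0
  rw [vchi_cls]
  refine mul_ne_zero ?_ Complex.I_ne_zero
  intro h3
  have : chi X.obj = 0 := by exact_mod_cast h3
  exact h2 (by rw [this]; simp)

end Stab

end LaxStab
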