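import Pool.Agent.R708.LS.Slice

/-!
A torsion pair in an abelian category `A` identified with the heart of a t-structure gives a
torsion pair in the heart.
-/

open CategoryTheory Limits Pretriangulated Triangulated ZeroObject

namespace LaxStab

universe v u v' u'

/-- A torsion pair in an abelian category. -/
structure TP (A : Type u') [Category.{v'} A] [Abelian A] where
  /-- torsion objects -/
  T : ObjectProperty A
  /-- torsion-free objects -/
  F : ObjectProperty A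
  zeroT : ∀ X, IsZero X → T X
  zeroF : ∀ X, IsZero X → F X
  sumT : ∀ X Y, T X → T Y → T (X ⊞ Y)
  sumF : ∀ X Y, F X → F Y → F (X ⊞ Y)
  hom : ∀ X Y, T X → F Y → ∀ f : X ⟶ Y, f = 0
  dec : ∀ Y, ∃ (X Z : A) (i : X ⟶ Y) (p : Y ⟶ Z) (w : i ≫ p = 0),
    (ShortComplex.mk i p w).ShortExact ∧ T X ∧ F Z

set_option linter.unusedSectionVars false

variable {C : Type u} [Category.{v} C] [HasZeroObject C] [HasShift C ℤ] [Preadditive C]
  [∀ n : ℤ, (shiftFunctor C n).Additive] [Pretriangulated C]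

/-- An identification of an abelian category `A` with the heart of a t-structure. -/
structure HI (A : Type u') [Category.{v'} A] [Abelian A] (t : TStructure C) where
  /-- the inclusion -/
  ι : A ⥤ C
  full : ι.Full
  faithful : ι.Faithful
  additive : ι.Additive
  le : ∀ M, t.IsLE (ι.obj M) 0
  ge : ∀ M, t.IsGE (ι.obj M) 0
  ess : ∀ X, t.IsLE X 0 → t.IsGE X 0 → ∃ M, Nonempty (X ≅ ι.obj M)
  tri : ∀ (X Y Z : A) (i : X ⟶ Y) (p : Y ⟶ Z) (w : i ≫ p = 0),
    (ShortComplex.mk i p w).ShortExact → ∃ δ, Triangle.mk (ι.map i) (ι.map p) δ ∈ distTriang C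

variable {A : Type u'} [Category.{v'} A] [Abelian A] {t : TStructure C}

/-- the objects of `C` in the image of a property of objects of `A` -/
def imgP (ι : A ⥤ C) (P : ObjectProperty A) : ObjectProperty C :=
  fun X => ∃ M, P M ∧ Nonempty (X ≅ ι.obj M)

theorem imgP_iso {ι : A ⥤ C} {P : ObjectProperty A} {X Y : C} (h : imgP ι P X) (e : X ≅ Y) :
    imgP ι P Y := by
  obtain ⟨M, hM, ⟨f⟩⟩ := h
  exact ⟨M, hM, ⟨e.symm ≪≫ f⟩⟩

theorem imgP_zero {ι : A ⥤ C} [ι.Additive] {P : ObjectProperty A} (hP : ∀ X, IsZero X → P X) {X : C}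
    (h : IsZero X) : imgP ι P X := by
  refine ⟨0, hP _ (isZero_zero A), ⟨h.iso (ι.map_isZero (isZero_zero A))⟩⟩

theorem imgP_sum {ι : A ⥤ C} [ι.Additive] {P : ObjectProperty A}
    (hP : ∀ X Y, P X → P Y → P (X ⊞ Y)) {X Y : C} (b : BinaryBicone X Y) (hb : b.IsBilimit)
    (hX : imgP ι P X) (hY : imgP ι P Y) : imgP ι P b.pt := by
  obtain ⟨M, hM, ⟨f⟩⟩ := hX
  obtain ⟨N, hN, ⟨g⟩⟩ := hY
  refine ⟨M ⊞ N, hP _ _ hM hN, ⟨⟨b.fst ≫ f.hom ≫ ι.map biprod.inl + b.snd ≫ g.hom ≫ ι.map biprod.inr,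
    ι.map biprod.fst ≫ f.inv ≫ b.inl + ι.map biprod.snd ≫ g.inv ≫ b.inr, ?_, ?_⟩⟩⟩
  · have h1 : ι.map (biprod.inl : M ⟶ M ⊞ N) ≫ ι.map biprod.fst = 𝟙 _ := by
      rw [← ι.map_comp, biprod.inl_fst, ι.map_id]
    have h2 : ι.map (biprod.inr : N ⟶ M ⊞ N) ≫ ι.map biprod.snd = 𝟙 _ := by
      rw [← ι.map_comp, biprod.inr_snd, ι.map_id]
    have h3 : ι.map (biprod.inl : M ⟶ M ⊞ N) ≫ ι.map biprod.snd = 0 := by
      rw [← ι.map_comp, biprod.inl_snd, ι.map_zero]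
    have h4 : ι.map (biprod.inr : N ⟶ M ⊞ N) ≫ ι.map biprod.fst = 0 := by
      rw [← ι.map_comp, biprod.inr_fst, ι.map_zero]
    simp only [Preadditive.add_comp, Preadditive.comp_add, Category.assoc]
    rw [reassoc_of% h1, reassoc_of% h2, reassoc_of% h3, reassoc_of% h4]
    simp only [zero_comp, comp_zero, add_zero, zero_add, Iso.hom_inv_id_assoc]
    exact IsBilimit.binary_total hb
  · have h1 : ι.map (biprod.fst : M ⊞ N ⟶ M) ≫ ι.map biprod.inl +
        ι.map (biprod.snd : M ⊞ N ⟶ N) ≫ ι.map biprod.inr = 𝟙 _ := by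
      rw [← ι.map_comp, ← ι.map_comp, ← ι.map_add, biprod.total, ι.map_id]
    simp only [Preadditive.add_comp, Preadditive.comp_add, Category.assoc]
    simp [h1]

/-- the torsion pair in the heart -/
def HTP.ofTP (I : HI A t) (tp : TP A) : HTP t :=
  haveI := I.full
  haveI := I.faithful
  haveI := I.additive
  { T := imgP I.ι tp.T
    F := imgP I.ι tp.F
    isoT := fun _ _ h e => imgP_iso h e
    isoF := fun _ _ h e => imgP_iso h e
    zeroT := fun _ h => imgP_zero tp.zeroT h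
    zeroF := fun _ h => imgP_zero tp.zeroF h
    sumT := fun _ _ b hb hX hY => imgP_sum tp.sumT b hb hX hY
    sumF := fun _ _ b hb hX hY => imgP_sum tp.sumF b hb hX hY
    leT := by
      rintro X ⟨M, _, ⟨e⟩⟩
      have := I.le M
      exact t.isLE_of_iso e.symm 0
    geT := by
      rintro X ⟨M, _, ⟨e⟩⟩
      have := I.ge M
      exact t.isGE_of_iso e.symm 0
    leF := by
      rintro X ⟨M, _, ⟨e⟩⟩
      have := I.le M
      exact t.isLE_of_iso e.symm 0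
    geF := by
      rintro X ⟨M, _, ⟨e⟩⟩
      have := I.ge M
      exact t.isGE_of_iso e.symm 0
    hom := by
      rintro X Y ⟨M, hM, ⟨e⟩⟩ ⟨N, hN, ⟨e'⟩⟩ f
      obtain ⟨g, hg⟩ := I.ι.map_surjective (e.inv ≫ f ≫ e'.hom)
      rw [tp.hom M N hM hN g, Functor.map_zero] at hg
      have h2 : e.inv ≫ f = 0 := by
        rw [← cancel_mono e'.hom, Category.assoc, ← hg, zero_comp]
      rw [← cancel_epi e.inv, h2, comp_zero]
    dec := by
      intro Y h1 h2
      obtain ⟨M, ⟨e⟩⟩ := I.ess Y h1 h2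
      obtain ⟨X, Z, i, p, w, hS, hX, hZ⟩ := tp.dec M
      obtain ⟨δ, hδ⟩ := I.tri X M Z i p w hS
      refine ⟨I.ι.obj X, I.ι.obj Z, I.ι.map i ≫ e.inv, e.hom ≫ I.ι.map p, δ, ⟨X, hX, ⟨Iso.refl _⟩⟩,
        ⟨Z, hZ, ⟨Iso.refl _⟩⟩, ?_⟩
      refine isomorphic_distinguished _ hδ _ ?_
      exact Triangle.isoMk _ _ (Iso.refl _) e (Iso.refl _)
        (by show (I.ι.map i ≫ e.inv) ≫ e.hom = 𝟙 _ ≫ I.ι.map i; simp)
        (by show (e.hom ≫ I.ι.map p) ≫ 𝟙 _ = e.hom ≫ I.ι.map p; simp)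
        (by show δ ≫ (𝟙 (I.ι.obj X))⟦(1 : ℤ)⟧' = 𝟙 _ ≫ δ; simp) }

end LaxStab
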